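import Mathlib
import Pool.Agent.E8helper19.PM.Stm

/-!
# Project PM, piece PM4 (`S_NC`): no concentration at `∂D`
-/

set_option autoImplicit false
open MeasureTheory Filter Topology Set
open scoped ContDiff ENNReal Real InnerProductSpace

namespace Pool.Agent.E8helper31.PM
open Pool.Agent.E8helper19.PM

noncomputable section

/-- the integral of a derivative of a compactly supported function -/
theorem int_fderiv_zero (F : E → ℝ) (hF : ContDiff ℝ 1 F) (hc : HasCompactSupport F) (v : E) :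
    Integrable (fun y => fderiv ℝ F y v) ∧ ∫ y, fderiv ℝ F y v = 0 := by
  have hcd : Continuous (fun y => fderiv ℝ F y v) :=
    (hF.continuous_fderiv (by norm_num)).clm_apply continuous_const
  have hcs : HasCompactSupport (fun y => fderiv ℝ F y v) := hc.fderiv_apply (𝕜 := ℝ) v
  have hi : Integrable (fun y => fderiv ℝ F y v) := hcd.integrable_of_hasCompactSupport hcs
  refine ⟨hi, ?_⟩
  have h1 := integral_mul_fderiv_eq_neg_fderiv_mul_of_integrable (𝕜 := ℝ) (μ := (volume : Measure E))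
    (f := fun _ : E => (1:ℝ)) (g := F) (v := v) ?_ ?_ ?_ ?_ ?_
  · simpa using h1
  · simp
  · simpa using hi
  · simpa using hF.continuous.integrable_of_hasCompactSupport hc
  · intro x _; exact differentiableAt_const _
  · intro x _; exact hF.differentiable (by norm_num) x

/-- the partial derivatives of a real function -/
def rd (ρ : E → ℝ) (j : Fin 3) (y : E) : ℝ := fderiv ℝ ρ y (EuclideanSpace.single j 1)

theorem norm_gr_sq (f : E → ℂ) (y : E) : ‖gr f y‖ ^ 2 = ∑ j : Fin 3, ‖pd j f y‖ ^ 2 := by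
  rw [EuclideanSpace.norm_sq_eq]
  rfl

theorem pd_cont (f : E → ℂ) (hf : ContDiff ℝ 1 f) (j : Fin 3) : Continuous (pd j f) :=
  (hf.continuous_fderiv (by norm_num)).clm_apply continuous_const

theorem rd_contDiff (ρ : E → ℝ) (hρ : ContDiff ℝ ∞ ρ) (j : Fin 3) : ContDiff ℝ ∞ (rd ρ j) :=
  (hρ.fderiv_right (m := ∞) (by simp)).clm_apply contDiff_const

/-- the basic integral inequality -/
theorem key (ρ : E → ℝ) (hρ : ContDiff ℝ ∞ ρ) (K0 : Set E) (A : ℝ)
    (hA1 : ∀ y ∈ K0, ∀ j, |rd ρ j y| ≤ A)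
    (hA2 : ∀ y ∈ K0, ∀ j, |rd (rd ρ j) j y| ≤ A)
    (f : E → ℂ) (hf : ContDiff ℝ 1 f) (hc : HasCompactSupport f) (hs : tsupport f ⊆ K0)
    (h φ : ℝ → ℝ) (hh : ∀ s, HasDerivAt h (φ s) s) (hφ : Continuous φ) (δ : ℝ) (hδ : 0 ≤ δ)
    (hhδ : ∀ s, |h s| ≤ δ) (S T : Set ℝ) (hS : MeasurableSet S) (hT : MeasurableSet T)
    (hSh : ∀ s, s ∉ S → h s = 0) (hφ0 : ∀ s, 0 ≤ φ s) (hφ1 : ∀ s ∈ T, 1 ≤ φ s)
    (c : ℝ) (hc0 : 0 ≤ c) (hN : ∀ y ∈ K0, ρ y ∈ T → c ≤ ∑ j : Fin 3, rd ρ j y ^ 2) :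
    c * ∫ y in ρ ⁻¹' T, ‖f y‖ ^ 2 ≤ 6 * A * δ * ∫ y in ρ ⁻¹' S, (‖f y‖ ^ 2 + ‖gr f y‖ ^ 2) := by
  have hρc : Continuous ρ := hρ.continuous
  have hh1 : ContDiff ℝ 1 h := by
    rw [contDiff_one_iff_deriv]
    refine ⟨fun s => (hh s).differentiableAt, ?_⟩
    have : deriv h = φ := funext fun s => (hh s).deriv
    rw [this]; exact hφ
  have hn2 : ContDiff ℝ 1 (fun y => ‖f y‖ ^ 2) := hf.norm_sq ℝ
  -- the vector field
  let F : Fin 3 → E → ℝ := fun j y => h (ρ y) * ‖f y‖ ^ 2 * rd ρ j y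
  have hF1 : ∀ j, ContDiff ℝ 1 (F j) := fun j =>
    ((hh1.comp (hρ.of_le (by exact_mod_cast le_top))).mul hn2).mul
      ((rd_contDiff ρ hρ j).of_le (by exact_mod_cast le_top))
  have hFc : ∀ j, HasCompactSupport (F j) := by
    intro j
    have h0 : HasCompactSupport (fun y => ‖f y‖ ^ 2) := by
      refine hc.mono ?_
      intro y hy
      simp only [Function.mem_support, ne_eq] at hy ⊢
      intro h; apply hy; rw [h]; simp
    exact (h0.mul_left (f := fun y => h (ρ y))).mul_right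
  -- the divergence
  have hdiv : ∀ j y, fderiv ℝ (F j) y (EuclideanSpace.single j 1)
      = φ (ρ y) * rd ρ j y ^ 2 * ‖f y‖ ^ 2
        + h (ρ y) * (2 * ⟪f y, pd j f y⟫_ℝ * rd ρ j y + ‖f y‖ ^ 2 * rd (rd ρ j) j y) := by
    intro j y
    have e1 : HasFDerivAt (fun y => h (ρ y)) (φ (ρ y) • fderiv ℝ ρ y) y :=
      (hh (ρ y)).comp_hasFDerivAt y (hρ.differentiable (by simp) y).hasFDerivAt
    have e2 : HasFDerivAt (fun y => ‖f y‖ ^ 2) (2 • (innerSL ℝ (f y)).comp (fderiv ℝ f y)) y :=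
      (hf.differentiable (by norm_num) y).hasFDerivAt.norm_sq
    have e3 : HasFDerivAt (rd ρ j) (fderiv ℝ (rd ρ j) y) y :=
      ((rd_contDiff ρ hρ j).differentiable (by simp) y).hasFDerivAt
    have e4 := ((e1.mul e2).mul e3).fderiv
    have e5 : fderiv ℝ (F j) y = fderiv ℝ ((fun y => h (ρ y)) * (fun y => ‖f y‖ ^ 2) * rd ρ j) y :=
      rfl
    rw [e5, e4]
    simp only [Pi.mul_apply, add_apply, smul_apply,
      ContinuousLinearMap.comp_apply, smul_eq_mul, nsmul_eq_mul, innerSL_apply_apply]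
    have e6 : fderiv ℝ ρ y (EuclideanSpace.single j 1) = rd ρ j y := rfl
    have e7 : fderiv ℝ f y (EuclideanSpace.single j 1) = pd j f y := rfl
    have e8 : fderiv ℝ (rd ρ j) y (EuclideanSpace.single j 1) = rd (rd ρ j) j y := rfl
    rw [e6, e7, e8]
    push_cast
    ring
  have hI : ∀ j, Integrable (fun y => fderiv ℝ (F j) y (EuclideanSpace.single j 1)) ∧
      ∫ y, fderiv ℝ (F j) y (EuclideanSpace.single j 1) = 0 :=
    fun j => int_fderiv_zero (F j) (hF1 j) (hFc j) _
  have hgc : Continuous (fun y => ‖gr f y‖ ^ 2) := by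
    have : (fun y => ‖gr f y‖ ^ 2) = fun y => ∑ j : Fin 3, ‖pd j f y‖ ^ 2 := by
      funext y; exact norm_gr_sq f y
    rw [this]
    exact continuous_finsetSum _ fun j _ => (pd_cont f hf j).norm.pow 2
  have hgs : HasCompactSupport (fun y => ‖f y‖ ^ 2 + ‖gr f y‖ ^ 2) := by
    refine HasCompactSupport.intro hc.isCompact ?_
    intro y hy
    have a1 : f y = 0 := image_eq_zero_of_notMem_tsupport hy
    have a2 : fderiv ℝ f y = 0 := fderiv_of_notMem_tsupport ℝ hy
    rw [norm_gr_sq]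
    simp [a1, pd, a2]
  have hInt : Integrable (fun y => ‖f y‖ ^ 2 + ‖gr f y‖ ^ 2) :=
    ((hf.continuous.norm.pow 2).add hgc).integrable_of_hasCompactSupport hgs
  have hInt2 : Integrable (fun y => ‖f y‖ ^ 2) := by
    refine (hf.continuous.norm.pow 2).integrable_of_hasCompactSupport ?_
    refine hc.mono ?_
    intro y hy
    simp only [Function.mem_support, ne_eq] at hy ⊢
    intro h; apply hy; simp [h]
  have hmS : MeasurableSet (ρ ⁻¹' S) := hρc.measurable hS
  have hmT : MeasurableSet (ρ ⁻¹' T) := hρc.measurable hT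
  -- the pointwise inequality
  have hpt : ∀ y, (ρ ⁻¹' T).indicator (fun y => c * ‖f y‖ ^ 2) y ≤
      ∑ j : Fin 3, fderiv ℝ (F j) y (EuclideanSpace.single j 1)
        + (ρ ⁻¹' S).indicator (fun y => 6 * A * δ * (‖f y‖ ^ 2 + ‖gr f y‖ ^ 2)) y := by
    intro y
    by_cases hy : y ∈ tsupport f
    · have hyK := hs hy
      have hA0 : 0 ≤ A := (abs_nonneg _).trans (hA1 y hyK 0)
      have b1 : (ρ ⁻¹' T).indicator (fun y => c * ‖f y‖ ^ 2) y ≤
          ∑ j : Fin 3, φ (ρ y) * rd ρ j y ^ 2 * ‖f y‖ ^ 2 := by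
        rw [← Finset.sum_mul, ← Finset.mul_sum]
        by_cases hyT : y ∈ ρ ⁻¹' T
        · rw [indicator_of_mem hyT]
          have := hN y hyK hyT
          have h1 := hφ1 (ρ y) hyT
          have h2 : c ≤ φ (ρ y) * ∑ j : Fin 3, rd ρ j y ^ 2 := by nlinarith
          exact mul_le_mul_of_nonneg_right h2 (by positivity)
        · rw [indicator_of_notMem hyT]
          have := hφ0 (ρ y)
          positivity
      have b2 : |∑ j : Fin 3, h (ρ y) * (2 * ⟪f y, pd j f y⟫_ℝ * rd ρ j y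
            + ‖f y‖ ^ 2 * rd (rd ρ j) j y)| ≤
          (ρ ⁻¹' S).indicator (fun y => 6 * A * δ * (‖f y‖ ^ 2 + ‖gr f y‖ ^ 2)) y := by
        by_cases hyS : y ∈ ρ ⁻¹' S
        · rw [indicator_of_mem hyS]
          have c1 : ∀ j : Fin 3, |h (ρ y) * (2 * ⟪f y, pd j f y⟫_ℝ * rd ρ j y
            + ‖f y‖ ^ 2 * rd (rd ρ j) j y)| ≤ δ * (A * (2 * ‖f y‖ ^ 2 + ‖pd j f y‖ ^ 2)) := by
            intro j
            rw [abs_mul]
            refine mul_le_mul (hhδ _) ?_ (abs_nonneg _) hδ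
            have d1 := hA1 y hyK j
            have d2 := hA2 y hyK j
            have d3 : |⟪f y, pd j f y⟫_ℝ| ≤ ‖f y‖ * ‖pd j f y‖ := abs_real_inner_le_norm _ _
            have d4 : |2 * ⟪f y, pd j f y⟫_ℝ * rd ρ j y| ≤ (‖f y‖ ^ 2 + ‖pd j f y‖ ^ 2) * A := by
              rw [abs_mul, abs_mul, abs_two]
              refine mul_le_mul ?_ d1 (abs_nonneg _) (by positivity)
              nlinarith [sq_nonneg (‖f y‖ - ‖pd j f y‖)]
            have d5 : |‖f y‖ ^ 2 * rd (rd ρ j) j y| ≤ ‖f y‖ ^ 2 * A := by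
              rw [abs_mul, abs_of_nonneg (by positivity : (0:ℝ) ≤ ‖f y‖ ^ 2)]
              exact mul_le_mul_of_nonneg_left d2 (by positivity)
            calc _ ≤ |2 * ⟪f y, pd j f y⟫_ℝ * rd ρ j y| + |‖f y‖ ^ 2 * rd (rd ρ j) j y| :=
                  abs_add_le _ _
              _ ≤ (‖f y‖ ^ 2 + ‖pd j f y‖ ^ 2) * A + ‖f y‖ ^ 2 * A := add_le_add d4 d5
              _ = _ := by ring
          calc _ ≤ ∑ j : Fin 3, |h (ρ y) * (2 * ⟪f y, pd j f y⟫_ℝ * rd ρ j y
                + ‖f y‖ ^ 2 * rd (rd ρ j) j y)| := Finset.abs_sum_le_sum_abs _ _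
            _ ≤ ∑ j : Fin 3, δ * (A * (2 * ‖f y‖ ^ 2 + ‖pd j f y‖ ^ 2)) :=
                Finset.sum_le_sum fun j _ => c1 j
            _ = δ * A * (6 * ‖f y‖ ^ 2 + ‖gr f y‖ ^ 2) := by
                rw [norm_gr_sq]; simp only [Fin.sum_univ_three]; ring
            _ ≤ _ := by
                have : 0 ≤ δ * A * ‖gr f y‖ ^ 2 := by positivity
                nlinarith
        · rw [indicator_of_notMem hyS, hSh _ hyS]
          simp
      have b3 : ∑ j : Fin 3, fderiv ℝ (F j) y (EuclideanSpace.single j 1)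
          = ∑ j : Fin 3, φ (ρ y) * rd ρ j y ^ 2 * ‖f y‖ ^ 2
            + ∑ j : Fin 3, h (ρ y) * (2 * ⟪f y, pd j f y⟫_ℝ * rd ρ j y
            + ‖f y‖ ^ 2 * rd (rd ρ j) j y) := by
        rw [← Finset.sum_add_distrib]
        exact Finset.sum_congr rfl fun j _ => hdiv j y
      rw [b3]
      have := neg_abs_le (∑ j : Fin 3, h (ρ y) * (2 * ⟪f y, pd j f y⟫_ℝ * rd ρ j y
            + ‖f y‖ ^ 2 * rd (rd ρ j) j y))
      linarith
    · have a1 : f y = 0 := image_eq_zero_of_notMem_tsupport hy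
      have a2 : fderiv ℝ f y = 0 := fderiv_of_notMem_tsupport ℝ hy
      have a3 : ‖gr f y‖ ^ 2 = 0 := by rw [norm_gr_sq]; simp [pd, a2]
      have b3 : ∑ j : Fin 3, fderiv ℝ (F j) y (EuclideanSpace.single j 1) = 0 := by
        refine Finset.sum_eq_zero fun j _ => ?_
        rw [hdiv j y]; simp [a1]
      rw [b3]
      have e1 : (ρ ⁻¹' T).indicator (fun y => c * ‖f y‖ ^ 2) y = 0 := by
        by_cases hyT : y ∈ ρ ⁻¹' T
        · rw [indicator_of_mem hyT]; simp [a1]
        · rw [indicator_of_notMem hyT]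
      have e2 : (ρ ⁻¹' S).indicator (fun y => 6 * A * δ * (‖f y‖ ^ 2 + ‖gr f y‖ ^ 2)) y = 0 := by
        by_cases hyS : y ∈ ρ ⁻¹' S
        · rw [indicator_of_mem hyS]; rw [a3, a1]; simp
        · rw [indicator_of_notMem hyS]
      rw [e1, e2]; simp
  have hfin := integral_mono (μ := (volume : Measure E))
    ((hInt2.const_mul c).indicator hmT)
    ((integrable_finsetSum Finset.univ fun j _ => (hI j).1).add
      ((hInt.const_mul (6 * A * δ)).indicator hmS)) hpt
  rw [integral_indicator hmT, integral_const_mul] at hfin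
  have e1 : ∫ y, (∑ j : Fin 3, fderiv ℝ (F j) y (EuclideanSpace.single j 1)
        + (ρ ⁻¹' S).indicator (fun y => 6 * A * δ * (‖f y‖ ^ 2 + ‖gr f y‖ ^ 2)) y)
      = 6 * A * δ * ∫ y in ρ ⁻¹' S, (‖f y‖ ^ 2 + ‖gr f y‖ ^ 2) := by
    rw [integral_add (integrable_finsetSum Finset.univ fun j _ => (hI j).1)
      ((hInt.const_mul (6 * A * δ)).indicator hmS),
      integral_finsetSum _ fun j _ => (hI j).1, integral_indicator hmS, integral_const_mul]
    simp [(hI _).2]
  exact hfin.trans_eq e1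

/-- the clamp function -/
def clamp (x : ℝ) : ℝ := max 0 (min 1 x)

theorem clamp_cont : Continuous clamp := by unfold clamp; fun_prop

theorem clamp_nonneg (x : ℝ) : 0 ≤ clamp x := le_max_left _ _

theorem clamp_le (x : ℝ) : clamp x ≤ 1 := max_le zero_le_one (min_le_left _ _)

theorem clamp_zero {x : ℝ} (h : x ≤ 0) : clamp x = 0 := by
  unfold clamp; exact max_eq_left ((min_le_right _ _).trans h)

theorem clamp_one {x : ℝ} (h : 1 ≤ x) : clamp x = 1 := by
  unfold clamp; rw [min_eq_left h]; exact max_eq_right zero_le_one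

/-- the cutoffs -/
theorem cutoff (δ : ℝ) (hδ : 0 < δ) (n : ℕ) : ∃ h φ : ℝ → ℝ, (∀ s, HasDerivAt h (φ s) s) ∧
    Continuous φ ∧ (∀ s, |h s| ≤ 2 * δ) ∧ (∀ s, s ∉ Iio (0:ℝ) → h s = 0) ∧ (∀ s, 0 ≤ φ s) ∧
    ∀ s ∈ Ioc (-δ) (-(1 / ((n:ℝ) + 1))), 1 ≤ φ s := by
  have hn : (0:ℝ) < (n:ℝ) + 1 := by positivity
  let φ : ℝ → ℝ := fun s => clamp (-(((n:ℝ) + 1) * s)) * clamp (2 + s / δ)
  have hφc : Continuous φ := by
    have a1 : Continuous fun s : ℝ => clamp (-(((n:ℝ) + 1) * s)) := clamp_cont.comp (by fun_prop)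
    have a2 : Continuous fun s : ℝ => clamp (2 + s / δ) := clamp_cont.comp (by fun_prop)
    exact a1.mul a2
  have hφ0 : ∀ s, 0 ≤ φ s := fun s => mul_nonneg (clamp_nonneg _) (clamp_nonneg _)
  have hφ1 : ∀ s, φ s ≤ 1 := fun s => mul_le_one₀ (clamp_le _) (clamp_nonneg _) (clamp_le _)
  have hφp : ∀ s, 0 ≤ s → φ s = 0 := by
    intro s hs
    have : clamp (-(((n:ℝ) + 1) * s)) = 0 := clamp_zero (by nlinarith)
    simp only [φ, this, zero_mul]
  have hφm : ∀ s, s ≤ -(2 * δ) → φ s = 0 := by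
    intro s hs
    have : clamp (2 + s / δ) = 0 := clamp_zero (by
      have : s / δ ≤ -2 := by rw [div_le_iff₀ hδ]; linarith
      linarith)
    simp only [φ, this, mul_zero]
  refine ⟨fun s => ∫ t in (0:ℝ)..s, φ t, φ, ?_, hφc, ?_, ?_, hφ0, ?_⟩
  · intro s
    exact (hφc.integral_hasStrictDerivAt 0 s).hasDerivAt
  · intro s
    have hb : ∀ s : ℝ, |s| ≤ 2 * δ → |∫ t in (0:ℝ)..s, φ t| ≤ 2 * δ := by
      intro s hs
      have := intervalIntegral.norm_integral_le_of_norm_le_const (a := 0) (b := s) (C := 1)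
        (f := φ) (fun x _ => by rw [Real.norm_eq_abs, abs_of_nonneg (hφ0 x)]; exact hφ1 x)
      rw [Real.norm_eq_abs, sub_zero, one_mul] at this
      exact this.trans hs
    rcases le_or_gt 0 s with h0 | h0
    · have : ∫ t in (0:ℝ)..s, φ t = 0 := by
        rw [intervalIntegral.integral_congr (g := fun _ => (0:ℝ)) ?_]
        · simp
        · intro t ht
          rw [uIcc_of_le h0] at ht
          exact hφp t ht.1
      simp only [this, abs_zero]; positivity
    · rcases le_or_gt (-(2 * δ)) s with h1 | h1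
      · exact hb s (by rw [abs_of_neg h0]; linarith)
      · have e1 : ∫ t in (0:ℝ)..s, φ t = ∫ t in (0:ℝ)..(-(2 * δ)), φ t := by
          rw [← intervalIntegral.integral_add_adjacent_intervals
            (hφc.intervalIntegrable 0 (-(2 * δ))) (hφc.intervalIntegrable (-(2 * δ)) s)]
          have : ∫ t in (-(2 * δ))..s, φ t = 0 := by
            rw [intervalIntegral.integral_congr (g := fun _ => (0:ℝ)) ?_]
            · simp
            · intro t ht
              rw [uIcc_of_ge h1.le] at ht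
              exact hφm t ht.2
          rw [this, add_zero]
        simp only [e1]
        exact hb _ (by rw [abs_neg, abs_of_pos (by positivity)])
  · intro s hs
    have h0 : 0 ≤ s := not_lt.1 hs
    show ∫ t in (0:ℝ)..s, φ t = 0
    rw [intervalIntegral.integral_congr (g := fun _ => (0:ℝ)) ?_]
    · simp
    · intro t ht
      rw [uIcc_of_le h0] at ht
      exact hφp t ht.1
  · intro s hs
    have a1 : clamp (-(((n:ℝ) + 1) * s)) = 1 := clamp_one (by
      have h1 := hs.2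
      have : ((n:ℝ) + 1) * s ≤ ((n:ℝ) + 1) * (-(1 / ((n:ℝ) + 1))) :=
        mul_le_mul_of_nonneg_left h1 hn.le
      have e : ((n:ℝ) + 1) * (-(1 / ((n:ℝ) + 1))) = -1 := by field_simp
      linarith)
    have a2 : clamp (2 + s / δ) = 1 := clamp_one (by
      have : -1 ≤ s / δ := by rw [le_div_iff₀ hδ]; linarith [hs.1]
      linarith)
    simp only [φ, a1, a2]; norm_num

/-- the estimate in a collar -/
theorem collar (ρ : E → ℝ) (hρ : ContDiff ℝ ∞ ρ) (K0 : Set E) (A : ℝ)
    (hA1 : ∀ y ∈ K0, ∀ j, |rd ρ j y| ≤ A)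
    (hA2 : ∀ y ∈ K0, ∀ j, |rd (rd ρ j) j y| ≤ A)
    (f : E → ℂ) (hf : ContDiff ℝ 1 f) (hc : HasCompactSupport f) (hs : tsupport f ⊆ K0)
    (δ : ℝ) (hδ : 0 < δ) (c : ℝ) (hc0 : 0 ≤ c)
    (hN : ∀ y ∈ K0, -δ < ρ y → ρ y < 0 → c ≤ ∑ j : Fin 3, rd ρ j y ^ 2) :
    c * ∫ y in ρ ⁻¹' Ioo (-δ) 0, ‖f y‖ ^ 2 ≤
      6 * A * (2 * δ) * ∫ y in ρ ⁻¹' Iio 0, (‖f y‖ ^ 2 + ‖gr f y‖ ^ 2) := by
  have hρc : Continuous ρ := hρ.continuous
  have hInt2 : Integrable (fun y => ‖f y‖ ^ 2) := by
    refine (hf.continuous.norm.pow 2).integrable_of_hasCompactSupport ?_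
    refine hc.mono ?_
    intro y hy
    simp only [Function.mem_support, ne_eq] at hy ⊢
    intro h; apply hy; simp [h]
  let T : ℕ → Set ℝ := fun n => Ioc (-δ) (-(1 / ((n:ℝ) + 1)))
  have hU : ⋃ n, ρ ⁻¹' (T n) = ρ ⁻¹' Ioo (-δ) 0 := by
    rw [← preimage_iUnion]
    congr 1
    ext s
    simp only [mem_iUnion, T, mem_Ioc, mem_Ioo]
    constructor
    · rintro ⟨n, h1, h2⟩
      refine ⟨h1, h2.trans_lt ?_⟩
      have : (0:ℝ) < 1 / ((n:ℝ) + 1) := by positivity
      linarith
    · rintro ⟨h1, h2⟩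
      obtain ⟨n, hn⟩ := exists_nat_one_div_lt (neg_pos.2 h2)
      exact ⟨n, h1, by linarith⟩
  have hmono : Monotone fun n => ρ ⁻¹' (T n) := by
    intro m n hmn
    refine preimage_mono ?_
    refine Ioc_subset_Ioc_right ?_
    have : 1 / ((n:ℝ) + 1) ≤ 1 / ((m:ℝ) + 1) := by
      apply one_div_le_one_div_of_le (by positivity)
      have : (m:ℝ) ≤ n := by exact_mod_cast hmn
      linarith
    linarith
  have ht := tendsto_setIntegral_of_monotone (μ := (volume : Measure E))
    (f := fun y => ‖f y‖ ^ 2) (s := fun n => ρ ⁻¹' (T n))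
    (fun n => hρc.measurable measurableSet_Ioc) hmono hInt2.integrableOn
  rw [hU] at ht
  refine le_of_tendsto' (ht.const_mul c) fun n => ?_
  obtain ⟨h, φ, k1, k2, k3, k4, k5, k6⟩ := cutoff δ hδ n
  refine key ρ hρ K0 A hA1 hA2 f hf hc hs h φ k1 k2 (2 * δ) (by positivity) k3 (Iio 0) (T n)
    measurableSet_Iio measurableSet_Ioc k4 k5 k6 c hc0 ?_
  intro y hy hT
  refine hN y hy hT.1 (lt_of_le_of_lt hT.2 ?_)
  have : (0:ℝ) < 1 / ((n:ℝ) + 1) := by positivity
  linarith

/-- the squared gradient is nonzero where the derivative is -/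
theorem grad_pos (ρ : E → ℝ) (y : E) (h : fderiv ℝ ρ y ≠ 0) : 0 < ∑ j : Fin 3, rd ρ j y ^ 2 := by
  by_contra hcon
  push Not at hcon
  apply h
  have h0 : ∑ j : Fin 3, rd ρ j y ^ 2 = 0 :=
    le_antisymm hcon (Finset.sum_nonneg fun j _ => sq_nonneg _)
  rw [Finset.sum_eq_zero_iff_of_nonneg fun j _ => sq_nonneg _] at h0
  have h1 : ∀ j, rd ρ j y = 0 := fun j => by
    have := h0 j (Finset.mem_univ j); exact pow_eq_zero_iff (two_ne_zero) |>.1 this
  apply ContinuousLinearMap.coe_injective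
  refine (EuclideanSpace.basisFun (Fin 3) ℝ).toBasis.ext fun j => ?_
  simpa [rd] using h1 j

/-- the estimate in a thin collar -/
theorem thin (ρ : E → ℝ) (hρ : ContDiff ℝ ∞ ρ) (hr : ∀ y, ρ y = 0 → fderiv ℝ ρ y ≠ 0)
    (K0 : Set E) (hK : IsCompact K0) (ε : ℝ) (hε : 0 < ε) :
    ∃ δ : ℝ, 0 < δ ∧ ∀ f : E → ℂ, ContDiff ℝ 1 f → HasCompactSupport f → tsupport f ⊆ K0 →
      ∫ y in ρ ⁻¹' Ioo (-δ) 0, ‖f y‖ ^ 2 ≤
        ε * ∫ y in ρ ⁻¹' Iio 0, (‖f y‖ ^ 2 + ‖gr f y‖ ^ 2) := by
  have hρc : Continuous ρ := hρ.continuous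
  have hrc : ∀ j, Continuous (rd ρ j) := fun j => (rd_contDiff ρ hρ j).continuous
  have hrrc : ∀ j, Continuous (rd (rd ρ j) j) := fun j =>
    (rd_contDiff _ (rd_contDiff ρ hρ j) j).continuous
  -- the lower bound
  obtain ⟨m, hm0, hm⟩ := hK.exists_forall_le'
    (f := fun y => max |ρ y| (∑ j : Fin 3, rd ρ j y ^ 2)) (a := 0)
    ((hρc.abs.max (continuous_finsetSum _ fun j _ => (hrc j).pow 2)).continuousOn) (by
      intro y _
      by_cases h0 : ρ y = 0
      · exact lt_max_of_lt_right (grad_pos ρ y (hr y h0))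
      · exact lt_max_of_lt_left (abs_pos.2 h0))
  -- the upper bound
  obtain ⟨B, hB⟩ := hK.exists_bound_of_continuousOn
    (f := fun y => ∑ j : Fin 3, (|rd ρ j y| + |rd (rd ρ j) j y|))
    (continuous_finsetSum _ fun j _ => (hrc j).abs.add (hrrc j).abs).continuousOn
  let A : ℝ := max B 1
  have hA0 : 0 < A := lt_max_of_lt_right one_pos
  have hA : ∀ y ∈ K0, ∀ j, |rd ρ j y| + |rd (rd ρ j) j y| ≤ A := by
    intro y hy j
    have h1 := hB y hy
    rw [Real.norm_eq_abs, abs_of_nonneg (Finset.sum_nonneg fun j _ => by positivity)] at h1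
    have h2 : |rd ρ j y| + |rd (rd ρ j) j y| ≤ ∑ j : Fin 3, (|rd ρ j y| + |rd (rd ρ j) j y|) :=
      Finset.single_le_sum (f := fun j => |rd ρ j y| + |rd (rd ρ j) j y|)
        (fun j _ => by positivity) (Finset.mem_univ j)
    exact (h2.trans h1).trans (le_max_left _ _)
  refine ⟨min (m / 2) (ε * m / (12 * A)), by positivity, ?_⟩
  intro f hf hc hs
  have hδ0 : 0 < min (m / 2) (ε * m / (12 * A)) := by positivity
  have hmain := collar ρ hρ K0 A (fun y hy j => by linarith [hA y hy j, abs_nonneg (rd (rd ρ j) j y)])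
    (fun y hy j => by linarith [hA y hy j, abs_nonneg (rd ρ j y)]) f hf hc hs
    (min (m / 2) (ε * m / (12 * A))) hδ0 m hm0.le (by
      intro y hy h1 h2
      have h3 : |ρ y| < m := by
        rw [abs_of_neg h2]
        have : min (m / 2) (ε * m / (12 * A)) ≤ m / 2 := min_le_left _ _
        linarith
      have h4 := hm y hy
      rcases le_max_iff.1 h4 with h5 | h5
      · linarith
      · exact h5)
  have hJ : 0 ≤ ∫ y in ρ ⁻¹' Iio 0, (‖f y‖ ^ 2 + ‖gr f y‖ ^ 2) :=
    integral_nonneg fun y => by positivity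
  have h6 : 6 * A * (2 * min (m / 2) (ε * m / (12 * A))) ≤ ε * m := by
    have : min (m / 2) (ε * m / (12 * A)) ≤ ε * m / (12 * A) := min_le_right _ _
    rw [le_div_iff₀ (by positivity)] at this
    linarith
  have h7 := hmain.trans (mul_le_mul_of_nonneg_right h6 hJ)
  have h8 : m * ∫ y in ρ ⁻¹' Ioo (-min (m / 2) (ε * m / (12 * A))) 0, ‖f y‖ ^ 2 ≤
      m * (ε * ∫ y in ρ ⁻¹' Iio 0, (‖f y‖ ^ 2 + ‖gr f y‖ ^ 2)) := by
    calc _ ≤ _ := h7
      _ = _ := by ring
  exact le_of_mul_le_mul_left h8 hm0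

/-- piece PM4 -/
theorem t_NC : S_NC := by
  intro Ω D ε hΩ hΩb hD hDΩ hε
  obtain ⟨ρ, hρ, hDρ, hr⟩ := hD
  have hρc : Continuous ρ := hρ.continuous
  have hDo : IsOpen D := by rw [hDρ]; exact isOpen_lt hρc continuous_const
  have hDb : Bornology.IsBounded D := hΩb.subset (subset_closure.trans hDΩ)
  have hDc : IsCompact (closure D) := hDb.isCompact_closure
  constructor
  · -- inside
    obtain ⟨L, hLc, hDL, hLΩ⟩ := exists_compact_between hDc hΩ hDΩ
    obtain ⟨χ, hχ1, hχ0, -⟩ := exists_contMDiffMap_one_nhds_of_subset_interior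
      (n := (⊤ : ℕ∞)) (modelWithCornersSelf ℝ E) isClosed_closure hDL
    have hχs : ContDiff ℝ ∞ χ := χ.contMDiff.contDiff
    obtain ⟨δ, hδ, hmain⟩ := thin ρ hρ hr L hLc ε hε
    refine ⟨{y | ρ y ≤ -δ}, ?_, ?_, ?_⟩
    · refine Metric.isCompact_of_isClosed_isBounded (isClosed_le hρc continuous_const) ?_
      refine hDb.subset ?_
      intro y hy
      rw [hDρ]
      show ρ y < 0
      have : ρ y ≤ -δ := hy
      linarith
    · intro y hy
      rw [hDρ]
      show ρ y < 0
      have : ρ y ≤ -δ := hy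
      linarith
    · intro f hf
      let g : E → ℂ := fun y => (χ y : ℝ) • f y
      have hts : tsupport g ⊆ L := by
        refine closure_minimal ?_ hLc.isClosed
        intro y hy
        by_contra hyL
        apply hy
        simp only [g, hχ0 y hyL, zero_smul]
      have hgc : HasCompactSupport g := hLc.of_isClosed_subset (isClosed_tsupport _) hts
      have hg1 : ContDiff ℝ 1 g := by
        rw [contDiff_iff_contDiffAt]
        intro y
        by_cases hy : y ∈ Ω
        · exact (hχs.of_le (by exact_mod_cast le_top)).contDiffAt.smul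
            (hf.contDiffAt (hΩ.mem_nhds hy))
        · have : g =ᶠ[𝓝 y] fun _ => 0 := by
            have : Lᶜ ∈ 𝓝 y := hLc.isClosed.isOpen_compl.mem_nhds fun h => hy (hLΩ h)
            filter_upwards [this] with z hz
            simp only [g, hχ0 z hz, zero_smul]
          exact contDiffAt_const.congr_of_eventuallyEq this
      have hev : ∀ y ∈ D, g =ᶠ[𝓝 y] f := by
        intro y hy
        have := eventually_nhdsSet_iff_forall.1 hχ1 y (subset_closure hy)
        filter_upwards [this] with z hz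
        simp only [g, hz, one_smul]
      have h1 := hmain g hg1 hgc hts
      have e1 : D \ {y | ρ y ≤ -δ} = ρ ⁻¹' Ioo (-δ) 0 := by
        rw [hDρ]; ext y
        simp only [Set.mem_sdiff, Set.mem_ofPred_eq, not_le, mem_preimage, mem_Ioo]
        tauto
      have e2 : D = ρ ⁻¹' Iio 0 := hDρ
      have e3 : ∫ y in D \ {y | ρ y ≤ -δ}, ‖f y‖ ^ 2 = ∫ y in ρ ⁻¹' Ioo (-δ) 0, ‖g y‖ ^ 2 := by
        rw [e1]
        refine setIntegral_congr_fun (hρc.measurable measurableSet_Ioo) ?_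
        intro y hy
        have : y ∈ D := by rw [hDρ]; exact hy.2
        simp only [(hev y this).eq_of_nhds]
      have e4 : H1 D f = ∫ y in ρ ⁻¹' Iio 0, (‖g y‖ ^ 2 + ‖gr g y‖ ^ 2) := by
        rw [H1, ← e2]
        refine setIntegral_congr_fun hDo.measurableSet ?_
        intro y hy
        have h2 : gr g y = gr f y := by
          simp only [gr, pd, (hev y hy).fderiv_eq]
        simp only [(hev y hy).eq_of_nhds, h2]
      rw [e3, e4]
      exact h1
  · -- outside
    let σ : E → ℝ := fun y => -ρ y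
    have hσ : ContDiff ℝ ∞ σ := hρ.neg
    have hσr : ∀ y, σ y = 0 → fderiv ℝ σ y ≠ 0 := by
      intro y hy h0
      have e : fderiv ℝ σ y = -fderiv ℝ ρ y := fderiv_fun_neg
      rw [e, neg_eq_zero] at h0
      exact hr y (neg_eq_zero.1 hy) h0
    have hcl : closure D = {y | ρ y ≤ 0} := by
      apply Subset.antisymm
      · refine closure_minimal ?_ (isClosed_le hρc continuous_const)
        rw [hDρ]; intro y hy
        exact le_of_lt (show ρ y < 0 from hy)
      · intro y hy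
        rcases lt_or_eq_of_le (show ρ y ≤ 0 from hy) with h | h
        · refine subset_closure ?_
          rw [hDρ]; exact h
        · by_contra hcon
          have hmin : IsLocalMin ρ y := by
            have : (closure D)ᶜ ∈ 𝓝 y := isClosed_closure.isOpen_compl.mem_nhds hcon
            filter_upwards [this] with z hz
            rw [h]
            by_contra hz2
            apply hz
            refine subset_closure ?_
            rw [hDρ]; exact not_le.1 hz2
          exact hr y h hmin.fderiv_eq_zero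
    obtain ⟨δ, hδ, hmain⟩ := thin σ hσ hσr (closure Ω) hΩb.isCompact_closure ε hε
    refine ⟨{y | ρ y < δ}, isOpen_lt hρc continuous_const, ?_, ?_⟩
    · rw [hcl]; intro y hy; exact lt_of_le_of_lt hy hδ
    · intro f hf
      have h1 := hmain f (hf.smooth.of_le (by exact_mod_cast le_top)) hf.cpt
        (hf.supp.trans subset_closure)
      have e1 : {y | ρ y < δ} \ closure D = σ ⁻¹' Ioo (-δ) 0 := by
        rw [hcl]; ext y
        simp only [Set.mem_sdiff, Set.mem_ofPred_eq, not_le, mem_preimage, mem_Ioo, σ]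
        constructor
        · rintro ⟨a, b⟩; constructor <;> linarith
        · rintro ⟨a, b⟩; constructor <;> linarith
      have e2 : H1 (Ω \ closure D) f = ∫ y in σ ⁻¹' Iio 0, (‖f y‖ ^ 2 + ‖gr f y‖ ^ 2) := by
        rw [H1]
        symm
        refine setIntegral_eq_of_subset_of_forall_sdiff_eq_zero ?_ ?_ ?_
        · exact hσ.continuous.measurable measurableSet_Iio
        · rw [hcl]
          intro y hy
          have : ¬ ρ y ≤ 0 := hy.2
          show -ρ y < 0
          linarith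
        · intro y hy
          have hyΩ : y ∉ Ω := by
            intro h
            apply hy.2
            refine ⟨h, ?_⟩
            rw [hcl]
            intro h2
            have h3 : -ρ y < 0 := hy.1
            have h4 : ρ y ≤ 0 := h2
            linarith
          have hyt : y ∉ tsupport f := fun h => hyΩ (hf.supp h)
          have a1 : f y = 0 := image_eq_zero_of_notMem_tsupport hyt
          have a2 : fderiv ℝ f y = 0 := fderiv_of_notMem_tsupport ℝ hyt
          rw [norm_gr_sq]; simp [a1, pd, a2]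
      rw [e1, e2]
      exact h1

end

end Pool.Agent.E8helper31.PM
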